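import Pool.Agent.Lib.MP_72b724_gt.H99.Final
import Pool.Agent.Lib.MP_72b724_gt.H99.VolUnique
import Pool.Agent.Lib.MP_72b724_gt.H99.Bridge

/-!
# MP_72b724_gt: simplicial volume and the growth radius

For every dimension `n + 1` there is a constant `C > 0` such that every closed connected Riemannian
manifold `M` of dimension `n + 1` with a fundamental cycle `c` (an orientation) satisfies
`‖M‖ ≤ C (Vol M / r₀^(n+1)) (log (C Vol M / r₀^(n+1)))^(n+1)`, where `r₀` is the growth radius of
`M`; this radius is positive, and if it is infinite then `‖M‖ = 0`.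
-/

open MeasureTheory Set Pool.Agent.Lib.MP_89fcdb_gt Pool.Agent.Lib.MP_72b724_gt
  Pool.Agent.Lib.MP_72b724_gt.Riem

namespace Pool.Agent.Results.MP_72b724_gt.GrowthRadius

/-- **The simplicial volume is bounded in terms of the growth radius.** -/
theorem result :
    ∀ n : ℕ, ∃ C : ℝ, 0 < C ∧ ∀ M : RManifold (n + 1),
      (∃! vol : Measure M.pts, M.IsVolume vol) ∧
      ∀ vol : Measure M.pts, M.IsVolume vol →
        ∀ c : Chain (n + 1) M.pts, IsFundamental c →
          0 < growthRadius (n + 1) vol ∧
          (growthRadius (n + 1) vol = ⊤ → simplicialVolume c = 0) ∧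
          (growthRadius (n + 1) vol ≠ ⊤ →
            simplicialVolume c ≤
              C * (vol.real univ / (growthRadius (n + 1) vol).toReal ^ (n + 1)) *
                (Real.log (C * (vol.real univ /
                  (growthRadius (n + 1) vol).toReal ^ (n + 1)))) ^ (n + 1)) := by
  intro n
  obtain ⟨C, hC, h⟩ := H99.mainStatement n
  refine ⟨C, hC, fun M => ⟨H99.existsUnique_vol (n + 1) M.pts, fun vol hvol c hc => ?_⟩⟩
  obtain ⟨h1, h2⟩ := h M.pts vol hvol c hc
  exact ⟨h1, H99.topCaseStatement n M.pts vol hvol c hc, h2⟩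

end Pool.Agent.Results.MP_72b724_gt.GrowthRadius
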